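import Pool.Agent.BES.Stmts
import Pool.Agent.BEO.Stmts

/-!
# Row SEF of squad BES (MP_be01ff_an): conclusion
-/

namespace Pool.Agent.BES.H53

open Set Filter Topology MeasureTheory
open Pool.Agent.BE01
open Pool.Agent.BEB (cf hs)
open Pool.Agent.BES

/-- `Lj m j ≥ 1` for a suitable `j`. -/
theorem lj_pos (m : ℕ) : ∃ j : ℕ, 1 ≤ Lj m j := by
  rcases Nat.eq_zero_or_pos m with h | h
  · refine ⟨1, ?_⟩
    subst h
    unfold Lj
    norm_num
  · refine ⟨0, ?_⟩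
    unfold Lj
    omega

/-- Row SEF. -/
theorem sef (aro : Pool.Agent.BEO.AroStmt) (sps : SpsStmt) (phs : PhsStmt) : SefStmt := by
  intro m R hR
  obtain ⟨j, hj⟩ := lj_pos m
  obtain ⟨x0, hx0, hz, hn⟩ := aro (Lj m j) hj
  obtain ⟨φ, hφ, hE, hS⟩ := phs m j R x0 hR hx0 hz
  refine ⟨(x0 / R) ^ 2, φ, hφ, hE, hS, ?_⟩
  intro n h2 u hu hSu
  have hnpos : (0 : ℝ) < (n : ℝ) := by
    have : 0 < n := by omega
    exact_mod_cast this
  refine sps m R ((n : ℝ) * x0) hR (mul_pos hnpos hx0) (fun i => hn n (Lj m i) h2) u ?_ hSu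
  have he : ((n : ℝ) * x0 / R) ^ 2 = (n : ℝ) ^ 2 * (x0 / R) ^ 2 := by ring
  rw [he]
  exact hu

end Pool.Agent.BES.H53
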